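import Pool.Agent.Run7.h457.PM.Main

/-!
# The Tate conjecture and the isogeny theorem for pure motives generated by hyperkähler varieties of
# arbitrary deformation types and abelian motives

Let `F ⊆ ℂ` be a number field (or a finitely generated field), `X_t` finitely many projective
hyperkähler varieties over `F`, of any deformation types, and `P` a motive over `F` such that the
Mumford-Tate conjecture holds for the sum of `P` and the `H²(X_t)`, for instance the motive of an
abelian variety which satisfies the Mumford-Tate conjecture (Commelin; `b_2 > 3`). Let `M`, `N` be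
objects of the tannakian category generated by `P`, all `H^i(X_t)` and `ℚ(1)`; these are for example
all Tate twists of the `H^j(Y)`, for all products `Y` of copies of the `X_t` and of the abelian
variety, and their direct summands.

**Theorem.** (1) For all `p` and all finite extensions `F'` of `F` the space
`Hom_(G_F')(M_p, N_p)` is contained in the `ℚ_p`-span of the space of morphisms of Hodge structures
`M_B → N_B`, and for all `F'` which contain a certain finite extension `F_p` of `F` it is equal to
this span; so its dimension is the dimension over `ℚ` of the space of morphisms of Hodge structures,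
and does not depend on `p`.

(2) (Isogeny theorem) If `M_p` and `N_p` are isomorphic as representations of `G_F'`, for one prime `p`
and one finite extension `F'` of `F`, then `M_B` and `N_B` are isomorphic as rational Hodge structures,
and for all primes `p` the representations `M_p` and `N_p` are isomorphic over a finite extension.

(3) The following are equivalent: all morphisms of Hodge structures `M_B → N_B` are given by algebraic
correspondences; for all `p` and all finite extensions `F'` of `F` the map
`ρ_p : Hom(M, N) ⊗ ℚ_p → Hom_(G_F')(M_p, N_p)` is an isomorphism; the same for one `p` and all `F'`;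
`ρ_p` is an isomorphism for one `p` and one `F'` which contains `F_p`.

(4) In this case, if `M_p` and `N_p` are isomorphic representations of `G_F'` for one `p`, then some
homomorphism of motives `M → N` over `F'` is an isomorphism on the realizations.

Earlier this was known for the four known deformation types only, as then the motives are abelian.

The Lie algebra of the image of the Galois group on each of these `p`-adic realizations is the
`ℚ_p`-span of the Lie algebra of the Mumford-Tate group (project MT457: helper457, helper475,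
helper615, helper411, helper514, helper869, helper483, helper700, helper576, helper644), in particular on
the internal Hom object of `M` and `N`.
-/

set_option autoImplicit false

namespace Pool.Agent.Results.MP_3703a7_ag.HyperkaehlerMotives

open Run7.h457.PM Pool.Agent.W401.Cheb
open Run7.h869.HG (Family)

/-- **Pure motives generated by hyperkähler varieties and by `P`.** -/
theorem result {F : Type} [Field F] (V : Family F) [Nonempty V.T] (P : Motive F)
    (h : (P.sum (two V)).MumfordTate) {M N : Motive F} (hM : Generated V P M) (hN : Generated V P N) :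
    ∃ Δ₀ : ∀ (p : ℕ) [Fact p.Prime], Subgroup (GK F),
      (∀ (p : ℕ) [Fact p.Prime], (Δ₀ p).FiniteIndex ∧
        (∀ Δ : Subgroup (GK F), Δ.FiniteIndex → galHoms M N p Δ ≤ hodgeSpan M N p) ∧
        ∀ Δ ≤ Δ₀ p, Δ.FiniteIndex → galHoms M N p Δ = hodgeSpan M N p ∧
          Module.finrank ℚ_[p] (galHoms M N p Δ) = Module.finrank ℚ (hodgeHoms M N)) ∧
      [HodgeIso M N,
        ∀ (p : ℕ) [Fact p.Prime], ∃ Δ : Subgroup (GK F), Δ.FiniteIndex ∧ GaloisIso M N p Δ,
        ∃ (p : ℕ) (_ : Fact p.Prime) (Δ : Subgroup (GK F)),
          Δ.FiniteIndex ∧ GaloisIso M N p Δ].TFAE ∧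
      ∀ H : Homs M N,
        [H.Hodge,
          ∀ (p : ℕ) [Fact p.Prime] (Δ : Subgroup (GK F)), Δ.FiniteIndex → H.Tate p Δ,
          ∃ (p : ℕ) (_ : Fact p.Prime), ∀ Δ : Subgroup (GK F), Δ.FiniteIndex → H.Tate p Δ,
          ∃ (p : ℕ) (_ : Fact p.Prime) (Δ : Subgroup (GK F)),
            Δ ≤ Δ₀ p ∧ H.Tate p Δ].TFAE ∧
        (H.Hodge → ∀ (p : ℕ) [Fact p.Prime] (Δ : Subgroup (GK F)), Δ.FiniteIndex →
          GaloisIso M N p Δ → ∃ a, (∀ σ ∈ Δ, H.act σ a = a) ∧ ∃ g : Matrix M.κ N.κ ℚ,
            g * H.betti a = 1 ∧ H.betti a * g = 1) := by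
  have hall : ∀ (p : ℕ) [Fact p.Prime], ∃ Δ : Subgroup (GK F), Δ.FiniteIndex ∧
      hodgeSpan M N p ≤ galHoms M N p Δ := fun p _ => le_gal h hM hN p
  choose Δ₀ hfin hle using hall
  have hle' : ∀ (p : ℕ) [Fact p.Prime], ∀ Δ ≤ Δ₀ p, hodgeSpan M N p ≤ galHoms M N p Δ :=
    fun p _ Δ hΔ φ hφ => mem_galHoms.2 fun σ hσ => mem_galHoms.1 (hle p hφ) σ (hΔ hσ)
  refine ⟨fun p _ => Δ₀ p, fun p _ => ⟨hfin p, fun Δ hΔ => gal_le h hM hN p Δ hΔ,
    fun Δ hΔ hΔ' => ?_⟩, isogeny h hM hN, fun H => ⟨?_, fun hH p _ Δ hΔ hiso =>
      iso_over h hM hN H hH p Δ hΔ hiso⟩⟩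
  · have h1 : galHoms M N p Δ = hodgeSpan M N p :=
      le_antisymm (gal_le h hM hN p Δ hΔ') (hle' p Δ hΔ)
    refine ⟨h1, ?_⟩
    rw [h1, hodgeSpan_eq]
    exact finrank_span p (hodgeHoms M N)
  · tfae_have 1 → 2 := fun hH p _ Δ hΔ => tate_of_hodge h hM hN H hH p Δ hΔ
    tfae_have 2 → 3 := fun h1 => ⟨2, ⟨Nat.prime_two⟩, fun Δ hΔ => by
      have : Fact (Nat.Prime 2) := ⟨Nat.prime_two⟩
      exact h1 2 Δ hΔ⟩
    tfae_have 3 → 4 := by
      rintro ⟨p, hp, h1⟩
      exact ⟨p, hp, Δ₀ p, le_rfl, h1 (Δ₀ p) (hfin p)⟩
    tfae_have 4 → 1 := by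
      rintro ⟨p, hp, Δ, hΔ, h1⟩
      exact hodge_of_tate h hM hN H p Δ (hle' p Δ hΔ) h1
    tfae_finish

end Pool.Agent.Results.MP_3703a7_ag.HyperkaehlerMotives
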