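import Mathlib
import Pool.Agent.H204R3.GP.Defs
import Pool.Agent.H204R3.GP.HomDefs
import Pool.Agent.H204R3.GP.Hom
import Pool.Agent.Run7.h142.TF.Gen
import Pool.Agent.Run7.h142.TF.Main
import Pool.Agent.Y137.MV.Criteria

/-!
# The Tate conjecture for the pure motives generated by an abelian variety with one Frobenius element
that has several Weil numbers of the same CM fields

Let `E k` be finitely many CM fields and `π k i`, `i : I k`, finitely many Weil numbers for `q = p ^ a`
in `E k`. So many Weil numbers, in particular many abelian varieties over the field with `q` elements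
that are not isogenous over any extension, may belong to the same field. We assume:

* The fields have no rigid pairs (`NoRigidPairs`): for a complex embedding `x` of `E k` and a complex
  embedding `y` of `E l` which is not `x` or its complex conjugate, some automorphism of `ℂ` fixes `x`
  and maps `y` to its complex conjugate. This is true for generic CM fields of any degree; by the
  third part of the theorem it is true if for each `k` some prime divides the discriminant of `E k`,
  but its square does not divide the product of the discriminants of all the fields.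
* For each `k` the slope deviations of the numbers `π k i`, `i : I k`, are linearly independent over
  `ℚ` (`IndependentSlopes`). The slope deviation `dev p a x` is the function `2 ord_p (τ x) - a` of the
  embeddings `τ` of the field in the algebraic closure of `ℚ_p`; its values are `a (2 λ - 1)` for the
  slopes `λ`. Nothing else is assumed on the Newton polygons.

Let `F` be a number field and `A` an abelian variety over `F`, of any dimension and with arbitrary
endomorphisms (for instance absolutely simple), with good reduction at ONE place `v` of `F`, the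
residue field having `q = p ^ a` elements, such that the characteristic polynomial of the Frobenius
element `γ` at `v` is the product of the minimal polynomials of the Weil numbers `π k i`.

Theorem (`TateForMotives`): for all primes `ℓ` not divisible by `v`, **all homomorphisms between the
`ℓ`-adic realizations of the pure motives `h_1(A) ^ {⊗ s} (c)` and `h_1(A) ^ {⊗ t} (d)` which commute
with a subgroup of finite index of the Galois group of `F` are linear combinations of products of
Tate classes of degree two**; by the theorem of Faltings these are realizations of morphisms of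
motives. Therefore the Tate conjecture, the surjectivity of
`Hom(M, M') ⊗ ℚ_ℓ → Hom_{G_F}(M_ℓ, M'_ℓ)`, holds for all pure motives `M`, `M'` in the tensor category
generated by `h_1(A)`: all direct summands of the motives of the powers of `A` and of all the motives
that are cut out of them by correspondences, and their Tate twists. (The map is injective since the
motives of abelian varieties are taken modulo homological equivalence.)

In the Lean statement `V` is the rational Tate module, the `ℓ`-adic realization of `h_1(A)`, with the
action `ρ` of the Galois group (semisimple: Faltings), `ω` is the Weil pairing of a polarization, `χ`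
is the cyclotomic character and `γ` the Frobenius element at `v`.

In the second part there is one CM field `E` of degree `2 g` without rigid pairs. A CM type `Φ` of `E`,
a function `M` with nonzero integral values on the complex embeddings of `E` and a real number `c ≠ 0`
prescribe the slopes `(a + c M) / 2` (at the embeddings in `Φ`) and `(a - c M) / 2` (outside of `Φ`) of
a Weil number for `p ^ a` in `E` (`HasType`; `M = 1`, `c = a` is the ordinary case). For given weights
`M i`, `i < r`, there are `2 ^ (g r)` families of `r` types `Φ i`, and the number of the families for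
which the conclusion of the first part is false for some Weil numbers `π i` with the slope types
`Φ i`, `M i` is at most `2 ^ (g r) * (2 ^ r - 1) / 2 ^ g`: an exponentially small proportion.

The starting result `OneFrobeniusSignature` treats one Weil number in each of several CM fields of
degree `2 r ^ k` which contain different imaginary quadratic fields. If several Weil numbers belong to
the same field then the Galois actions on their conjugates are the same, and the relations between
them are the new difficulty (solved in files Run7/h142 of helper142).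
-/

set_option autoImplicit false

namespace Pool.Agent.Results.MP_3703a7_ag.SeveralWeilNumbers

open NumberField Module Pool.Agent.H204R3.CM Pool.Agent.H204R3.GP Pool.Agent.H204R3.SP
  Pool.Agent.Run7.h142.JT Pool.Agent.Run7.h142.TF

/-- The Tate conjecture, in the strong form that all homomorphisms are combinations of products of
Tate classes of degree two, for the homomorphisms between all pure motives `h_1(A) ^ {⊗ s} (c)`, for all
abelian varieties `A` with a Frobenius element `γ` whose characteristic polynomial is the product of
the minimal polynomials of the Weil numbers `π i` for `p ^ a`, and all prime numbers `ℓ`. -/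
def TateForMotives (p a : ℕ) {I : Type} [Fintype I] (K : I → Type) [∀ i, Field (K i)]
    [∀ i, NumberField (K i)] (π : ∀ i, K i) : Prop :=
  ∀ (ℓ : ℕ) [Fact ℓ.Prime] (V Γ : Type) [AddCommGroup V] [Module ℚ_[ℓ] V]
    [FiniteDimensional ℚ_[ℓ] V] [Group Γ] (ρ : Representation ℚ_[ℓ] Γ V) (χ : Γ →* ℚ_[ℓ])
    (ω : V →ₗ[ℚ_[ℓ]] V →ₗ[ℚ_[ℓ]] ℚ_[ℓ]), (∀ v, ω v v = 0) → (∀ u, (∀ v, ω v u = 0) → u = 0) →
    (∀ s u v, ω (ρ s u) (ρ s v) = χ s * ω u v) → FiniteIndexSemisimple ρ →
    (∃ γ : Γ, χ γ = (p : ℚ_[ℓ]) ^ a ∧
      (ρ γ).charpoly = ∏ i, (minpoly ℚ (π i)).map (algebraMap ℚ ℚ_[ℓ])) →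
    HomsGeneratedInDegreeTwo ρ χ ω

theorem tateForMotives_of_angle {p : ℕ} [Fact p.Prime] {a : ℕ} (ha : 0 < a) {I : Type} [Fintype I]
    {K : I → Type} [∀ i, Field (K i)] [∀ i, NumberField (K i)] [∀ i, IsCMField (K i)]
    {π : ∀ i, K i} (hgen : ∀ i, IntermediateField.adjoin ℚ {π i} = ⊤)
    (hw : ∀ i, π i * IsCMField.complexConj (K i) (π i) = (p : K i) ^ a)
    (hang : Pool.Agent.Y137.MV.MaximalAngleRank (p ^ a) π) : TateForMotives p a K π := by
  intro ℓ _ V Γ _ _ _ _ ρ χ ω halt hnondeg hω hss hF
  obtain ⟨γ, hχ, hγ⟩ := hF
  have hss' : ∀ Δ : Subgroup Γ, Δ.FiniteIndex → SemiUnder (ρ '' (Δ : Set Γ)) := by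
    intro Δ hΔ U hU
    obtain ⟨U', h1, h2⟩ := hss Δ hΔ U (fun s hs u hu => hU _ ⟨s, hs, rfl⟩ u hu)
    refine ⟨U', ?_, h2⟩
    rintro _ ⟨s, hs, rfl⟩ u hu
    exact h1 s hs u hu
  obtain ⟨L, hL1, hL2, j, h⟩ := Pool.Agent.H204R3.CM.exists_galois K
  exact homs_generated ρ χ ω halt hnondeg hω fun m φ hφ => tate_of_neat ha hgen hw
    j h (Pool.Agent.Y137.MV.neat_of_angle j hang) ρ χ ω halt hnondeg hω hss' γ hχ hγ φ hφ

/-- The families of `r` types for which the Tate conjecture for motives is false for some abelian
variety with a Frobenius element with these slope types. -/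
def exceptionalFamilies {p : ℕ} [Fact p.Prime] (ν : PadicAlgCl p ≃+* ℂ) (E : Type) [Field E]
    [NumberField E] [IsCMField E] {r : ℕ} (M : Fin r → (E →+* ℂ) → ℤ) :
    Set (Fin r → Set (E →+* ℂ)) :=
  {Φ | (∀ i, IsCMType (Φ i)) ∧ ¬ ∀ (a : ℕ) (π : Fin r → E), 0 < a →
    (∀ i, Pool.Agent.Y1.CT.HasType ν a (M i) (Φ i) (π i)) →
      TateForMotives p a (fun _ : Fin r => E) π}

/-- **The Tate conjecture for the motives generated by the abelian varieties with one Frobenius
element that has several Weil numbers with independent slopes in the same CM fields.** -/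
theorem result :
    (∀ (p : ℕ) [Fact p.Prime] (a : ℕ) (κ : Type) [Fintype κ] (E : κ → Type) [∀ k, Field (E k)]
      [∀ k, NumberField (E k)] [∀ k, IsCMField (E k)] (I : κ → Type) [∀ k, Fintype (I k)]
      (π : ∀ k, I k → E k), 0 < a → NoRigidPairs E → IndependentSlopes p a π →
        TateForMotives p a (Fam E I) fun x => π x.1 x.2) ∧
    (∀ (p : ℕ) [Fact p.Prime] (ν : PadicAlgCl p ≃+* ℂ) (E : Type) [Field E] [NumberField E]
      [IsCMField E] (g r : ℕ) (M : Fin r → (E →+* ℂ) → ℤ), finrank ℚ E = 2 * g →
      NoRigidPairs (fun _ : Unit => E) → (∀ i φ, M i φ ≠ 0) →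
        (exceptionalFamilies ν E M).ncard * 2 ^ g ≤ (2 ^ r - 1) * 2 ^ (g * r)) ∧
    ∀ (κ : Type) [Fintype κ] (E : κ → Type) [∀ k, Field (E k)] [∀ k, NumberField (E k)]
      [∀ k, IsCMField (E k)], (∀ k, ∃ ℓ : ℕ, ℓ.Prime ∧ (ℓ : ℤ) ∣ discr (E k) ∧
        ¬ (ℓ : ℤ) ^ 2 ∣ ∏ l, discr (E l)) → NoRigidPairs E := by
  refine ⟨?_, ?_, ?_⟩
  · intro p _ a κ _ E _ _ _ I _ π ha hE hπ
    exact tateForMotives_of_angle (K := Fam E I) ha (fun x => adjoin_eq_top hE hπ x.1 x.2)
      (fun x => hπ.weil x.1 x.2) (angle_of_indep hE hπ)
  · intro p _ ν E _ _ _ g r M hg hE hM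
    exact ncard_several_angle ν E hg hE M hM _ fun Φ h a π ha hπ =>
      tateForMotives_of_angle ha (fun i => (hπ i).gen) (fun i => (hπ i).weil) (h a π ha hπ)
  · intro κ _ E _ _ _ h
    exact noRigidPairs_of_discr h

end Pool.Agent.Results.MP_3703a7_ag.SeveralWeilNumbers
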