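import Pool.Agent.Run7.h293.OR.G

/-!
# Motives of even weight over `ℚ` with squarefree conductor

Let `V` be the `ℓ`-adic realization of a polarized pure motive of even weight over `ℚ` (for instance a
part of the middle cohomology of a smooth projective variety of even dimension over `ℚ`), with
the polarization `ω` (`OrthogonalRep`). We suppose that the conductor of `V` is squarefree outside `ℓ`
(`SquarefreeConductor`): for every prime `p ≠ ℓ` the inertia group at `p` acts trivially, or fixes a hyperplane,
as for a reduction with one ordinary double point in even dimension and a regular model. There are two conditions
at `ℓ`:

* `NothingUnramified`: there is no nonzero subrepresentation which is unramified outside `ℓ`. By the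
  theorem of Fontaine (Schémas propres et lisses sur `Z`) this holds, for `ℓ = 7`, good reduction at `7` and
  Hodge-Tate weights in `[0, 3]`, if there are no Tate classes over `ℚ` itself in `V` (surfaces: `V` is the
  transcendental part, and the Tate conjecture for divisors over the field `ℚ` alone is supposed).
* `InertiaConnected`: finite sets of subspaces which are stable under the Galois group are fixed elementwise by
  the inertia at `ℓ`; this holds if `V` is crystalline or semistable at `ℓ`.

The coefficients are `ℚ_ℓ`, or any field with `FewRoots`.

**Theorem 1.** `V` is semisimple: it is the orthogonal direct sum of at most `r` irreducible subrepresentations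
`W i`, where `r` is the number of the bad primes. For each `i`

* either a subgroup of finite index acts on `W i` by scalars with square `χ` (`W i` consists of classes which
  are Tate classes over a finite extension of `ℚ`),
* or all the subspaces of `V` which are stable under a subgroup of finite index are stable under the full orthogonal
  Lie algebra of `W i`, and `W i` is irreducible under all subgroups of finite index, if its dimension is not two.

**Theorem 2.** If there is only one bad prime (prime conductor) `V` is indecomposable.

**Theorem 3.** (Tate conjecture.) Let `X` be a variety of even dimension over `ℚ` whose transcendental
cohomology `T` is of this kind and indecomposable, or has one bad prime, and does not consist of classes which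
are Tate classes over a finite extension up to a character of order two, `dim T ≥ 3`. Let `Z` be a variety such that an element
of an inertia group outside `ℓ` acts nontrivially on `T` and trivially on the cohomology of `Z`. Then for
`n + 1 < dim T` the Tate conjecture in all codimensions, over all finite extensions of `ℚ`, for the
products `X ^ (n + 1) × Z` is equivalent to the Tate conjecture for `Z`. So it is true for `X ^ (n + 1)` (`Z` a
point) and, by iteration, for the products of such powers of several such `X`.

Here irreducibility is not assumed but proved, as is the semisimplicity; and a finite image is excluded by one
class which is not a Tate class.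

The proof: the conjugates of the inertia groups outside `ℓ` act by reflections; let `D` be the set of their
directions. The orthogonal complement of `D` is unramified outside `ℓ`, so it is zero. The spans of the connected
components of the graph `ω v w ≠ 0` on `D` are permuted by the Galois group; the inertia groups outside `ℓ`
fix them, and those at `ℓ` by assumption, and so the Galois group fixes them, by the theorem of Minkowski (library
`Pool.Agent.W215`). If all products of two reflections in a component have finite order there are only
finitely many lines (library `Pool.Agent.TH125`), and the subgroup of finite index which fixes them acts by
scalars. If `t = s s'` has infinite order then `t ^ k - t ^ (- k)` is a nonzero multiple of the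
infinitesimal rotation in the plane of `s` and `s'`, so this rotation respects all the subspaces which are
stable under subgroups of finite index; and a nonzero Lie algebra which is stable under a connected set of
reflections is the full orthogonal one (theorem `good_span`: the totally isotropic radical of a
maximal subspace `E` with `Λ² E ⊆ L` would be orthogonal to all of `D`).
-/

set_option autoImplicit false

universe u

namespace Pool.Agent.Results.MP_3703a7_ag.SquarefreeReflections

open Run7.h293.OR Module Pool.Agent.W569.FM Pool.Agent.TH125.Gal Pool.Agent.H914

/-- **Motives of even weight with squarefree conductor.** -/
theorem result :
    -- 1. and 2.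
    (∀ (ℓ : ℕ) (K Y : Type) [Field K] [CharZero K] [TopologicalSpace K] [T1Space K]
      [AddCommGroup Y] [Module K Y] [FiniteDimensional K Y] (V : OrthogonalRep ℓ K Y)
      (S : Finset ℕ), FewRoots K → SquarefreeConductor V S → NothingUnramified V →
        InertiaConnected V →
        (∃ m ≤ S.card, ∃ W : Fin m → Submodule K Y, Splitting V W) ∧
        (S.card ≤ 1 → Indecomposable V)) ∧
    -- 3. the Tate conjecture
    (∀ (k : Type u) [Field k] (𝒱 : VarClass k) (ops : CycleOps 𝒱) (W : WeilCohomology.{u, 0} ops)
      [TopologicalSpace W.K] [T1Space W.K] (ℓ : ℕ) (χ : GF ℚ →* W.Kˣ) (X Z : GVar W (GF ℚ))
      (n : ℕ), FewRoots W.K → SquarefreePair ℓ χ X Z (n + 1) →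
      ∀ Y : GVar W (GF ℚ), IsPowProd X n Z Y → (TateConjecture χ Y ↔ TateConjecture χ Z)) := by
  refine ⟨?_, ?_⟩
  · intro ℓ K Y _ _ _ _ _ _ _ V S hK hS hF hC
    exact ⟨splitting hK hS hF hC, indecomposable hK hS hF hC⟩
  · intro k _ 𝒱 ops W _ _ ℓ χ X Z n hK h Y hY
    exact tate_pair hK h hY

end Pool.Agent.Results.MP_3703a7_ag.SquarefreeReflections
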