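import Pool.Agent.Run7.h365.DC.Main

/-!
# The Tate conjecture for products of arbitrary varieties with varieties with complex multiplication

`GF ℚ` is the Galois group of `ℚ`, the subgroups `G`, `H` of finite index are the Galois groups of
number fields. As in other starting files on the Tate conjecture `W` is the `ℓ`-adic cohomology with
coefficients in an algebraic closure of `ℚ_ℓ`, `GVar W G` are the varieties over the number field with
the Galois group `G`, with the action of `G` on the cohomology, and `Tate χ Z` is the Tate conjecture for
`Z` over all finite extensions, in all codimensions. `Splits χ Z V Y` says:

  **the Tate conjecture holds for `Y = V × Z` if and only if it holds for `V` and for `Z`.**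

Since the cohomology of `V × Z` contains the homomorphisms between the cohomology groups of `V` and of
`Z`, and of their tensor powers of total degree one, this is a statement about the realization of
morphisms between the motives of `V` and of `Z`. There is **no condition on the variety `Z`** in part 1.

1. Let `Z` be any smooth projective variety over a number field, and let `E i` be a separated family of CM
  fields, for example all imaginary quadratic fields (up to isomorphism, see part 3), or a family
  of CM fields with linearly disjoint normal closures. There is a finite set `R` of exceptional indices,
  at most as many as the sum of the Betti numbers of `Z`, such that `Splits χ Z V Y` for **all varieties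
  `V` over all number fields with complex multiplication by the fields `E i`, `i ∉ R`** (for example all
  products of abelian varieties with complex multiplication by these fields). The exceptional fields are
  restricted by the ramification of `Z`: each `i ∈ R` is in a finite set `J` of indices such that all
  elements `n` of `keeper Z` which act as the identity or as the complex conjugation on all `E l`,
  `l ∈ J`, act as the identity on `E i`. If the fields `E i` are imaginary quadratic, this says that all
  elements of `keeper Z` act as the identity on `E i` (see part 3). So if `Z` is defined over the number
  field `K` and semistable at all places, then `K E i` is an extension of `K` which is unramified at all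
  finite places, for all exceptional `i`; and all places of good reduction of `Z` with a neat
  Frobenius element split in this extension.
2. If the closure of the group `keeper Z` contains a complex conjugation, then there are no exceptional
  fields: `Splits χ Z V Y` for **all varieties `V` of CM type over all number fields** (all varieties
  with potentially abelian cohomology: abelian varieties with complex multiplication, Fermat varieties,
  K3 surfaces of CM type, ...).
3. Pairwise not isomorphic imaginary quadratic fields are separated, and each element of the Galois
  group acts on each of them as the identity or as the complex conjugation.
4. If `Z` is defined over `ℚ` and semistable at all prime numbers, then the hypothesis of part 2 is true.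
  (This is the theorem of Minkowski.) So for all such `Z`, in all dimensions, and for all `V` of CM type
  over number fields the Tate conjecture holds for `V × Z` if and only if it holds for `V` and for `Z`.

## The hypotheses

* `IsCM`, `IsCMType`: the description of the cohomology of `V` (Shimura and Taniyama for abelian
  varieties with complex multiplication: the characters are determined up to finite order by the
  infinity types, and the weight is the sum of the infinity type and its conjugate).
* `Keeps Z g`: true for the elements `g` of the inertia groups at the places not above `ℓ` where `Z` has
  semistable reduction (Grothendieck: `g` is unipotent), at the places above `ℓ` where the cohomology is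
  semistable in the sense of Fontaine (the lines which are stable under a subgroup of finite index are
  stable under the inertia group, which operates trivially on `D_pst`), and for the Frobenius elements at
  places of good reduction whose characteristic polynomials on `H^i(Z)` are neat.
* `IsGalois`, `IsTimes`: formal properties of the operation of the Galois group (see the starting files);
  `HasPoint`: there is a closed point.

## The proof

Tate classes on `V × Z` correspond to vectors in the cohomology of `Z` on which a subgroup of finite index
acts by a character which is inverse to a character in the cohomology of `V`, up to a power of `χ`. There
are only finitely many characters (up to finite order) in the cohomology of `Z`, not more than the sum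
of the Betti numbers, and the Galois group permutes them; the elements of `keeper Z` fix them (an
element which fixes the character up to a root of unity in the eigenvalues, and neat). The characters of
CM fields in a separated family are multiplicatively independent modulo powers of `χ` and torsion,
and the support of a character (the set of CM fields involved) is unique. So each character in the
cohomology of `Z` which is of this form, and which is not a power of `χ`, makes one index in its support
exceptional.
-/

set_option autoImplicit false

open CategoryTheory AlgebraicGeometry

namespace Pool.Agent.Results.MP_3703a7_ag.TimesComplexMultiplication

open Pool.Agent.H914 Pool.Agent.TH125.Gal Run7.h306.TF Run7.h365.DC Pool.Agent.W569.FM NumberField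
  Run7.h293.TS

/-- **The Tate conjecture for products `V × Z`, `V` with complex multiplication and `Z` arbitrary.** -/
theorem result {k : Type} [Field k] {𝒱 : VarClass k} {ops : CycleOps 𝒱}
    {W : WeilCohomology.{0, 0} ops} [IsAlgClosed W.K] (χ : Chr W.K) :
    -- 1. all varieties over number fields
    (∀ {ι : Type} (E : ι → Type) [∀ i, Field (E i)] [∀ i, NumberField (E i)]
      [∀ i, IsCMField (E i)], Separated E → ∀ (G : Subgroup (GF ℚ)) [G.FiniteIndex] (Z : Var W G),
        IsVariety χ Z → ∃ R : Finset ι, IsExceptional E χ Z R) ∧
    -- 2. varieties which keep a complex conjugation
    (∀ (G : Subgroup (GF ℚ)) (Z : Var W G), IsVariety χ Z → KeepsConjugation Z →
      SplitsAll χ Z) ∧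
    -- 3. imaginary quadratic fields
    (∀ {ι : Type} (E : ι → Type) [∀ i, Field (E i)] [∀ i, NumberField (E i)]
      [∀ i, IsCMField (E i)], (∀ i, Module.finrank ℚ (E i) = 2) →
        (∀ i j, i ≠ j → IsEmpty (E j →+* E i)) →
          Separated E ∧ ∀ i g, Fixes (E i) g ∨ Conjugates (E i) g) ∧
    -- 4. semistable varieties over the rational numbers
    ∀ Z : Var W (⊤ : Subgroup (GF ℚ)), InertiaKeeps Z → KeepsConjugation Z :=
  ⟨fun E _ _ _ hE G _ Z hZ => splits_sep E hE χ G Z hZ,
    fun _ _ hZ hD _ h hf _ _ hV hY => have := hf; splits_of_conjugation h hZ.1 hZ.2 hD hV hY,
    fun E _ _ _ h2 hne => ⟨separated_quadratic E h2 hne, fun i g => fixes_or_conjugates (h2 i) g⟩,
    fun _ hI => conjugation_of_inertia hI⟩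

end Pool.Agent.Results.MP_3703a7_ag.TimesComplexMultiplication
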